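import Mathlib

/-!
# The step of the Gaussian consensus process in one dimension
-/

set_option autoImplicit false

namespace Q214.GC

open MeasureTheory ProbabilityTheory Filter Topology Module
open scoped ENNReal RealInnerProductSpace NNReal

section General

variable {E : Type*} [NormedAddCommGroup E] [InnerProductSpace ℝ E] [FiniteDimensional ℝ E]
  [MeasurableSpace E] [BorelSpace E]

/-- the component orthogonal to `e` -/
noncomputable def bar (e y : E) : E := y - ⟪e, y⟫ • e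

/-- the step -/
noncomputable def TT (e : E) (β q : ℝ) (y g : E) : E :=
  ⟪e, y⟫ • e + β • bar e y + (q * ‖bar e y‖) • g

theorem bar_meas (e : E) : Measurable (bar e) := by unfold bar; fun_prop

theorem TT_meas (e : E) (β q : ℝ) : Measurable (fun p : E × E => TT e β q p.1 p.2) := by
  unfold TT
  have := bar_meas e
  fun_prop

theorem bar_add (e : E) (x y : E) : bar e (x + y) = bar e x + bar e y := by
  unfold bar
  rw [inner_add_right, add_smul]
  abel

theorem bar_smul (e : E) (c : ℝ) (x : E) : bar e (c • x) = c • bar e x := by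
  unfold bar
  rw [inner_smul_right, smul_sub, smul_smul]

theorem bar_e {e : E} (he : ‖e‖ = 1) : bar e e = 0 := by
  unfold bar
  rw [real_inner_self_eq_norm_sq, he]
  simp

theorem inner_bar {e : E} (he : ‖e‖ = 1) (x : E) : ⟪e, bar e x⟫ = 0 := by
  unfold bar
  rw [inner_sub_right, inner_smul_right, real_inner_self_eq_norm_sq, he]
  simp

theorem bar_bar {e : E} (he : ‖e‖ = 1) (x : E) : bar e (bar e x) = bar e x := by
  change bar e x - ⟪e, bar e x⟫ • e = bar e x
  rw [inner_bar he, zero_smul, sub_zero]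

theorem bar_TT {e : E} (he : ‖e‖ = 1) (β q : ℝ) (y g : E) :
    bar e (TT e β q y g) = β • bar e y + (q * ‖bar e y‖) • bar e g := by
  unfold TT
  rw [bar_add, bar_add, bar_smul, bar_smul, bar_smul, bar_e he, bar_bar he, smul_zero, zero_add]

theorem TT_shift {e : E} (he : ‖e‖ = 1) (β q : ℝ) (y g : E) (c : ℝ) :
    TT e β q (y + c • e) g = TT e β q y g + c • e := by
  unfold TT
  rw [bar_add, bar_smul, bar_e he, smul_zero, add_zero, inner_add_right, inner_smul_right,
    real_inner_self_eq_norm_sq, he, add_smul]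
  simp only [one_pow, mul_one]
  abel

/-- the decomposition of the Gaussian measure -/
theorem gauss_split {e : E} (he : ‖e‖ = 1) :
    ((stdGaussian E).prod (gaussianReal 0 1)).map (fun p : E × ℝ => bar e p.1 + p.2 • e) =
      stdGaussian E := by
  have hm : Measurable (fun p : E × ℝ => bar e p.1 + p.2 • e) := by
    have := bar_meas e
    fun_prop
  apply Measure.ext_of_charFun
  ext t
  rw [charFun_apply, integral_map hm.aemeasurable (by fun_prop), charFun_stdGaussian]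
  have h1 : ∀ p : E × ℝ, Complex.exp (⟪bar e p.1 + p.2 • e, t⟫ * Complex.I) =
      Complex.exp (⟪p.1, bar e t⟫ * Complex.I) * Complex.exp (⟪p.2, ⟪e, t⟫⟫ * Complex.I) := by
    intro p
    rw [← Complex.exp_add, ← add_mul]
    congr 2
    rw [inner_add_left, inner_smul_left]
    unfold bar
    simp only [inner_sub_left, inner_sub_right, inner_smul_left, inner_smul_right,
      conj_trivial, real_inner_comm e p.1]
    push_cast
    simp only [RCLike.inner_apply, conj_trivial]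
    push_cast
    ring
  simp_rw [h1]
  rw [integral_prod_mul (fun x : E => Complex.exp (⟪x, bar e t⟫ * Complex.I))
    (fun c : ℝ => Complex.exp (⟪c, ⟪e, t⟫⟫ * Complex.I)), ← charFun_apply, ← charFun_apply,
    charFun_stdGaussian, charFun_gaussianReal, ← Complex.exp_add]
  congr 1
  have h2 : ‖t‖ ^ 2 = ‖bar e t‖ ^ 2 + ⟪e, t⟫ ^ 2 := by
    have e1 : t = bar e t + ⟪e, t⟫ • e := by unfold bar; abel
    have e2 : ⟪bar e t, ⟪e, t⟫ • e⟫ = 0 := by
      rw [inner_smul_right, real_inner_comm e (bar e t), inner_bar he, mul_zero]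
    have h3 := norm_add_sq_real (bar e t) (⟪e, t⟫ • e)
    rw [← e1, e2, norm_smul, he, mul_one, Real.norm_eq_abs, sq_abs] at h3
    linarith
  rw [← Complex.ofReal_pow ‖t‖, h2]
  push_cast
  ring

theorem gaussianReal_le : gaussianReal 0 1 ≤ (volume : Measure ℝ) := by
  rw [gaussianReal_of_var_ne_zero 0 one_ne_zero]
  calc volume.withDensity (gaussianPDF 0 1) ≤ volume.withDensity 1 := by
        refine withDensity_mono (ae_of_all _ fun x => ?_)
        unfold gaussianPDF
        rw [Pi.one_apply, ← ENNReal.ofReal_one]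
        refine ENNReal.ofReal_le_ofReal ?_
        unfold gaussianPDFReal
        have h1 : Real.exp (-(x - 0) ^ 2 / (2 * ((1 : ℝ≥0) : ℝ))) ≤ 1 := by
          rw [Real.exp_le_one_iff]
          have := sq_nonneg (x - 0)
          rw [NNReal.coe_one]
          linarith
        have h2 : (√(2 * Real.pi * ((1 : ℝ≥0) : ℝ)))⁻¹ ≤ 1 := by
          refine inv_le_one_of_one_le₀ ?_
          rw [Real.one_le_sqrt, NNReal.coe_one]
          linarith [Real.pi_gt_three]
        exact mul_le_one₀ h2 (Real.exp_nonneg _) h1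
    _ = volume := withDensity_one

/-- smoothing along `e` -/
theorem smooth {e : E} (he : ‖e‖ = 1) {φ : E → ℝ≥0∞} (hφ : Measurable φ) {B : ℝ≥0∞}
    (hB : ∀ z, ∫⁻ c : ℝ, φ (z + c • e) ≤ B) (w : E) {a : ℝ} (ha : 0 < a) :
    ∫⁻ g, φ (w + a • g) ∂(stdGaussian E) ≤ ENNReal.ofReal (1 / a) * B := by
  have hb := bar_meas e
  rw [← gauss_split he, lintegral_map (by fun_prop) (by fun_prop),
    lintegral_prod _ (by fun_prop)]
  have h1 : ∀ g : E, ∫⁻ c : ℝ, φ (w + a • (bar e (g, c).1 + (g, c).2 • e)) ∂(gaussianReal 0 1) ≤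
      ENNReal.ofReal (1 / a) * B := by
    intro g
    calc ∫⁻ c : ℝ, φ (w + a • (bar e (g, c).1 + (g, c).2 • e)) ∂(gaussianReal 0 1) ≤
          ∫⁻ c : ℝ, φ (w + a • (bar e (g, c).1 + (g, c).2 • e)) :=
          lintegral_mono' gaussianReal_le le_rfl
      _ = ∫⁻ c : ℝ, (fun x : ℝ => φ ((w + a • bar e g) + x • e)) (a * c) := by
          refine lintegral_congr fun c => ?_
          simp only
          congr 1
          rw [smul_add, smul_smul]
          abel
      _ = ∫⁻ x, φ ((w + a • bar e g) + x • e) ∂(Measure.map (a * ·) volume) := by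
          rw [lintegral_map (by fun_prop) (by fun_prop)]
      _ = ENNReal.ofReal (1 / a) * ∫⁻ x : ℝ, φ ((w + a • bar e g) + x • e) := by
          rw [Real.map_volume_mul_left ha.ne', lintegral_smul_measure, smul_eq_mul,
            abs_of_pos (inv_pos.2 ha), one_div]
      _ ≤ _ := mul_le_mul_right (hB _) _
  calc _ ≤ ∫⁻ _g : E, ENNReal.ofReal (1 / a) * B ∂(stdGaussian E) := lintegral_mono h1
    _ = _ := by rw [lintegral_const, measure_univ, mul_one]

/-- the transition operator -/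
noncomputable def KK (e : E) (β q : ℝ) (φ : E → ℝ≥0∞) (y : E) : ℝ≥0∞ :=
  ∫⁻ g, φ (TT e β q y g) ∂(stdGaussian E)

theorem KK_meas (e : E) (β q : ℝ) {φ : E → ℝ≥0∞} (hφ : Measurable φ) :
    Measurable (KK e β q φ) := by
  unfold KK
  have := TT_meas e β q
  exact Measurable.lintegral_prod_right' (f := fun p : E × E => φ (TT e β q p.1 p.2))
    (hφ.comp this)

theorem KK_iter_meas (e : E) (β q : ℝ) {φ : E → ℝ≥0∞} (hφ : Measurable φ) (r : ℕ) :
    Measurable ((KK e β q)^[r] φ) := by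
  induction r generalizing φ with
  | zero => exact hφ
  | succ r ih =>
    rw [Function.iterate_succ_apply]
    exact ih (KK_meas e β q hφ)

theorem KK_line {e : E} (he : ‖e‖ = 1) (β q : ℝ) {φ : E → ℝ≥0∞} (hφ : Measurable φ) {B : ℝ≥0∞}
    (hB : ∀ z, ∫⁻ c : ℝ, φ (z + c • e) ≤ B) (z : E) :
    ∫⁻ c : ℝ, KK e β q φ (z + c • e) ≤ B := by
  unfold KK
  have hT := TT_meas e β q
  rw [lintegral_lintegral_swap]
  · calc ∫⁻ g, (∫⁻ c : ℝ, φ (TT e β q (z + c • e) g)) ∂(stdGaussian E) ≤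
          ∫⁻ _g, B ∂(stdGaussian E) := by
          refine lintegral_mono fun g => ?_
          simp only [TT_shift he]
          exact hB _
      _ = B := by rw [lintegral_const, measure_univ, mul_one]
  · refine Measurable.aemeasurable ?_
    exact hφ.comp (hT.comp (by fun_prop : Measurable fun p : ℝ × E => (z + p.1 • e, p.2)))

theorem KK_iter_line {e : E} (he : ‖e‖ = 1) (β q : ℝ) {φ : E → ℝ≥0∞} (hφ : Measurable φ)
    {B : ℝ≥0∞} (hB : ∀ z, ∫⁻ c : ℝ, φ (z + c • e) ≤ B) (r : ℕ) (z : E) :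
    ∫⁻ c : ℝ, (KK e β q)^[r] φ (z + c • e) ≤ B := by
  induction r generalizing φ with
  | zero => exact hB z
  | succ r ih =>
    rw [Function.iterate_succ_apply]
    exact ih (KK_meas e β q hφ) (KK_line he β q hφ hB)

/-- the bound for at least one step -/
theorem KK_bound {e : E} (he : ‖e‖ = 1) (β : ℝ) {q : ℝ} (hq : 0 < q) {φ : E → ℝ≥0∞}
    (hφ : Measurable φ) {B : ℝ≥0∞} (hB : ∀ z, ∫⁻ c : ℝ, φ (z + c • e) ≤ B) (r : ℕ) {y : E}
    (hy : 0 < ‖bar e y‖) :
    (KK e β q)^[r + 1] φ y ≤ ENNReal.ofReal (1 / (q * ‖bar e y‖)) * B := by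
  rw [Function.iterate_succ_apply']
  conv_lhs => unfold KK
  exact smooth he (KK_iter_meas e β q hφ r) (KK_iter_line he β q hφ hB r)
    (⟪e, y⟫ • e + β • bar e y) (mul_pos hq hy)

/-- the projection of the Gaussian measure -/
theorem gauss_proj (W : Submodule ℝ E) :
    (stdGaussian E).map (fun g => W.orthogonalProjectionOnto g) = stdGaussian W := by
  apply Measure.ext_of_charFun
  ext t
  rw [charFun_apply, integral_map (by fun_prop) (by fun_prop), charFun_stdGaussian]
  have h1 : ∀ g : E, ⟪W.orthogonalProjectionOnto g, t⟫ = ⟪g, (t : E)⟫ := fun g =>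
    Submodule.inner_orthogonalProjectionOnto_eq_of_mem_right t g
  simp_rw [h1]
  rw [← charFun_apply, charFun_stdGaussian]
  simp

theorem coe_proj {e : E} (he : ‖e‖ = 1) (g : E) :
    (((ℝ ∙ e)ᗮ).orthogonalProjectionOnto g : E) = bar e g := by
  rw [← Submodule.starProjection_apply, Submodule.starProjection_orthogonal_val,
    Submodule.starProjection_unit_singleton ℝ he]
  rfl

end General

/-- the space of the matrices -/
abbrev EE (n : ℕ) := EuclideanSpace ℝ (Fin (n + 1))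

/-- the first unit vector -/
noncomputable def e1 (n : ℕ) : EE n := EuclideanSpace.single 0 1

theorem norm_e1 (n : ℕ) : ‖e1 n‖ = 1 := by simp [e1]

variable {E : Type*} [NormedAddCommGroup E] [InnerProductSpace ℝ E] [FiniteDimensional ℝ E]
  [MeasurableSpace E] [BorelSpace E]

/-- the law of the ratio -/
theorem ratio {n : ℕ} (hfin : finrank ℝ E = n + 2) {e : E} (he : ‖e‖ = 1) (β q : ℝ) {y : E}
    (hy : 0 < ‖bar e y‖) {ψ : ℝ → ℝ≥0∞} (hψ : Measurable ψ) :
    ∫⁻ g, ψ ‖bar e (TT e β q y g)‖ ∂(stdGaussian E) =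
      ∫⁻ g, ψ (‖bar e y‖ * ‖β • e1 n + q • g‖) ∂(stdGaussian (EE n)) := by
  obtain ⟨s, hs⟩ : ∃ s, s = ‖bar e y‖ := ⟨_, rfl⟩
  rw [← hs] at hy ⊢
  have hmem : bar e y ∈ (ℝ ∙ e)ᗮ := by
    rw [Submodule.mem_orthogonal_singleton_iff_inner_right]
    exact inner_bar he y
  obtain ⟨θ, hθ⟩ : ∃ θ : ((ℝ ∙ e)ᗮ : Submodule ℝ E), θ = s⁻¹ • ⟨bar e y, hmem⟩ := ⟨_, rfl⟩
  have hθn : ‖θ‖ = 1 := by
    rw [hθ, norm_smul, Submodule.coe_norm, ← hs, Real.norm_eq_abs, abs_of_pos (inv_pos.2 hy)]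
    field_simp
  have hfW : finrank ℝ ((ℝ ∙ e)ᗮ : Submodule ℝ E) = n + 1 := by
    have : Fact (finrank ℝ E = (n + 1) + 1) := ⟨hfin⟩
    refine Submodule.finrank_orthogonal_span_singleton ?_
    rintro rfl
    simp at he
  obtain ⟨J0, -⟩ : ∃ J0 : ((ℝ ∙ e)ᗮ : Submodule ℝ E) ≃ₗᵢ[ℝ] EE n, True :=
    ⟨((stdOrthonormalBasis ℝ ((ℝ ∙ e)ᗮ : Submodule ℝ E)).reindex (finCongr hfW)).repr, trivial⟩
  obtain ⟨J, hJ⟩ : ∃ J : ((ℝ ∙ e)ᗮ : Submodule ℝ E) ≃ₗᵢ[ℝ] EE n, J θ = e1 n := by
    refine ⟨J0.trans ((ℝ ∙ (J0 θ - e1 n))ᗮ).reflection, ?_⟩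
    rw [LinearIsometryEquiv.trans_apply]
    exact Submodule.reflection_sub (by rw [J0.norm_map, hθn, norm_e1])
  have h1 : ∀ g : E, ‖bar e (TT e β q y g)‖ =
      s * ‖β • θ + q • ((ℝ ∙ e)ᗮ).orthogonalProjectionOnto g‖ := by
    intro g
    rw [bar_TT he, ← hs, Submodule.coe_norm]
    have e2 : ((β • θ + q • ((ℝ ∙ e)ᗮ).orthogonalProjectionOnto g :
        ((ℝ ∙ e)ᗮ : Submodule ℝ E)) : E) = β • (s⁻¹ • bar e y) + q • bar e g := by
      rw [Submodule.coe_add, Submodule.coe_smul, Submodule.coe_smul, coe_proj he, hθ,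
        Submodule.coe_smul]
    rw [e2]
    have e3 : s * ‖β • (s⁻¹ • bar e y) + q • bar e g‖ =
        ‖s • (β • (s⁻¹ • bar e y) + q • bar e g)‖ := by
      rw [norm_smul, Real.norm_eq_abs, abs_of_pos hy]
    rw [e3]
    congr 1
    rw [smul_add, smul_smul, smul_smul, smul_smul]
    congr 2
    · field_simp
    · ring
  simp_rw [h1]
  have h2 : ∫⁻ g, ψ (s * ‖β • θ + q • ((ℝ ∙ e)ᗮ).orthogonalProjectionOnto g‖) ∂(stdGaussian E) =
      ∫⁻ w, ψ (s * ‖β • θ + q • w‖) ∂(stdGaussian ((ℝ ∙ e)ᗮ : Submodule ℝ E)) := by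
    rw [← gauss_proj, lintegral_map (by fun_prop) (by fun_prop)]
  have h3 : ∫⁻ g, ψ (s * ‖β • e1 n + q • g‖) ∂(stdGaussian (EE n)) =
      ∫⁻ w, ψ (s * ‖β • e1 n + q • J w‖) ∂(stdGaussian ((ℝ ∙ e)ᗮ : Submodule ℝ E)) := by
    have h4 := stdGaussian_map J
    rw [← h4, lintegral_map (by fun_prop) (by fun_prop)]
  rw [h2, h3]
  refine lintegral_congr fun w => ?_
  congr 2
  rw [← hJ, ← map_smul, ← map_smul, ← map_add, J.norm_map]

end Q214.GC
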