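import Mathlib

/-!
# A centred random walk reaches the level `3 log t` before the time `t`
-/

set_option autoImplicit false

namespace Q214.GC

open MeasureTheory ProbabilityTheory Filter Topology
open scoped ENNReal

theorem sqrt_ineq (u : ℝ) : √(1 - u) ≤ 1 - u / 2 - u ^ 2 / 16 + |u| ^ 3 := by
  rcases le_total u 0 with h | h
  · rw [abs_of_nonpos h]
    obtain ⟨w, rfl⟩ : ∃ w, u = -w := ⟨-u, by ring⟩
    have hw : 0 ≤ w := by linarith
    have h0 : 0 ≤ w ^ 3 := by positivity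
    have h2 : w ^ 2 / 16 ≤ w ^ 3 + w / 2 := by nlinarith [sq_nonneg (w - 1), mul_nonneg hw (sq_nonneg (w - 1))]
    rw [Real.sqrt_le_left (by nlinarith)]
    have e : (1 - -w / 2 - (-w) ^ 2 / 16 + (- -w) ^ 3) = (1 + w / 2) + (w ^ 3 - w ^ 2 / 16) := by ring
    rw [e]
    have h3 : 0 ≤ (w ^ 3 - w ^ 2 / 16) ^ 2 := sq_nonneg _
    have h4 : w ^ 2 / 4 + 2 * (1 + w / 2) * (w ^ 3 - w ^ 2 / 16) ≥ 0 := by
      have : w ^ 2 / 4 + 2 * (1 + w / 2) * (w ^ 3 - w ^ 2 / 16) =
        w ^ 2 / 8 + (31 / 16) * w ^ 3 + w ^ 4 := by ring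
      rw [this]
      positivity
    nlinarith
  · rw [abs_of_nonneg h]
    rcases le_total u 1 with h1 | h1
    · have h2 : u ^ 2 ≤ 1 := by nlinarith
      have h3 : 0 ≤ u ^ 3 := by positivity
      rw [Real.sqrt_le_left (by nlinarith)]
      have e : (1 - u / 2 - u ^ 2 / 16 + u ^ 3) = (1 - u / 2) + (u ^ 3 - u ^ 2 / 16) := by ring
      rw [e]
      have h4 : 0 ≤ (u ^ 3 - u ^ 2 / 16) ^ 2 := sq_nonneg _
      have h5 : u ^ 2 / 4 + 2 * (1 - u / 2) * (u ^ 3 - u ^ 2 / 16) ≥ 0 := by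
        have : u ^ 2 / 4 + 2 * (1 - u / 2) * (u ^ 3 - u ^ 2 / 16) =
          u ^ 2 / 8 + u ^ 3 / 16 + 2 * (1 - u / 2) * u ^ 3 := by ring
        rw [this]
        have : 0 ≤ 1 - u / 2 := by linarith
        positivity
      nlinarith
    · rw [Real.sqrt_eq_zero_of_nonpos (by linarith)]
      have h2 : u ≤ u ^ 2 := by nlinarith
      have h3 : u ^ 2 ≤ u ^ 3 := by nlinarith [sq_nonneg u]
      nlinarith

/-- the law of the increments -/
structure Inc (ν : Measure ℝ) : Prop where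
  prob : IsProbabilityMeasure ν
  i1 : Integrable (fun z : ℝ => z) ν
  i3 : Integrable (fun z : ℝ => |z| ^ 3) ν
  mean : ∫ z, z ∂ν = 0
  var : 0 < ∫ z, z ^ 2 ∂ν

theorem Inc.i2 {ν : Measure ℝ} (h : Inc ν) : Integrable (fun z : ℝ => z ^ 2) ν := by
  have := h.prob
  refine ((integrable_const (1 : ℝ)).add h.i3).mono' (by fun_prop) (ae_of_all _ fun z => ?_)
  rw [Real.norm_eq_abs, abs_of_nonneg (sq_nonneg z), ← sq_abs]
  simp only [Pi.add_apply]
  nlinarith [abs_nonneg z, sq_nonneg (|z| - 1), mul_nonneg (abs_nonneg z) (sq_nonneg (|z| - 1))]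

theorem lyap {ν : Measure ℝ} (h : Inc ν) {a : ℝ}
    (ha : 32 * (∫ z, |z| ^ 3 ∂ν) / (∫ z, z ^ 2 ∂ν) + 1 ≤ a) :
    ∫⁻ z, ENNReal.ofReal (√(a - z)) ∂ν + ENNReal.ofReal ((∫ z, z ^ 2 ∂ν) / 32 * (√a / a ^ 2)) ≤
      ENNReal.ofReal (√a) := by
  have := h.prob
  obtain ⟨v, hv⟩ : ∃ v, v = ∫ z, z ^ 2 ∂ν := ⟨_, rfl⟩
  obtain ⟨m, hm⟩ : ∃ m, m = ∫ z, |z| ^ 3 ∂ν := ⟨_, rfl⟩
  have hv0 : 0 < v := hv ▸ h.var
  have hm0 : 0 ≤ m := by rw [hm]; exact integral_nonneg fun z => by positivity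
  rw [← hv, ← hm] at ha
  rw [← hv]
  have ha1 : 1 ≤ a := by
    have : 0 ≤ 32 * m / v := by positivity
    linarith
  have ha0 : 0 < a := by linarith
  have hs : 0 < √a := Real.sqrt_pos.2 ha0
  have hma : 32 * m ≤ v * a := by
    have h1 : 32 * m / v ≤ a := by linarith
    rw [div_le_iff₀ hv0] at h1
    linarith
  have hpt : ∀ z : ℝ, √(a - z) ≤ √a * (1 - z / a / 2 - (z / a) ^ 2 / 16 + |z / a| ^ 3) := by
    intro z
    have e : a - z = a * (1 - z / a) := by field_simp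
    rw [e, Real.sqrt_mul ha0.le]
    exact mul_le_mul_of_nonneg_left (sqrt_ineq _) hs.le
  have hint : Integrable (fun z : ℝ => √a * (1 - z / a / 2 - (z / a) ^ 2 / 16 + |z / a| ^ 3)) ν := by
    have e : (fun z : ℝ => √a * (1 - z / a / 2 - (z / a) ^ 2 / 16 + |z / a| ^ 3)) =
        fun z => √a * (1 - (1 / (2 * a)) * z - (1 / (16 * a ^ 2)) * z ^ 2 +
          (1 / a ^ 3) * |z| ^ 3) := by
      funext z
      rw [abs_div, abs_of_pos ha0]
      field_simp
    rw [e]
    exact ((((integrable_const _).sub (h.i1.const_mul _)).sub (h.i2.const_mul _)).add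
      (h.i3.const_mul _)).const_mul _
  have hval : ∫ z, √a * (1 - z / a / 2 - (z / a) ^ 2 / 16 + |z / a| ^ 3) ∂ν =
      √a * (1 - v / (16 * a ^ 2) + m / a ^ 3) := by
    have e : (fun z : ℝ => √a * (1 - z / a / 2 - (z / a) ^ 2 / 16 + |z / a| ^ 3)) =
        fun z => √a * (1 - (1 / (2 * a)) * z - (1 / (16 * a ^ 2)) * z ^ 2 +
          (1 / a ^ 3) * |z| ^ 3) := by
      funext z
      rw [abs_div, abs_of_pos ha0]
      field_simp
    rw [e, integral_const_mul, integral_add, integral_sub, integral_sub, integral_const_mul,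
      integral_const_mul, integral_const_mul, h.mean, ← hv, ← hm]
    · have e0 : ∫ _z : ℝ, (1 : ℝ) ∂ν = 1 := by simp
      rw [e0]
      ring
    · exact integrable_const _
    · exact h.i1.const_mul _
    · exact (integrable_const _).sub (h.i1.const_mul _)
    · exact h.i2.const_mul _
    · exact ((integrable_const _).sub (h.i1.const_mul _)).sub (h.i2.const_mul _)
    · exact h.i3.const_mul _
  have hint1 : Integrable (fun z : ℝ => √(a - z)) ν := by
    refine hint.mono' (by fun_prop) (ae_of_all _ fun z => ?_)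
    rw [Real.norm_eq_abs, abs_of_nonneg (Real.sqrt_nonneg _)]
    exact hpt z
  rw [← ofReal_integral_eq_lintegral_ofReal hint1 (ae_of_all _ fun z => Real.sqrt_nonneg _),
    ← ENNReal.ofReal_add (integral_nonneg fun z => Real.sqrt_nonneg _) (by positivity)]
  refine ENNReal.ofReal_le_ofReal ?_
  have h1 : ∫ z, √(a - z) ∂ν ≤ √a * (1 - v / (16 * a ^ 2) + m / a ^ 3) := by
    rw [← hval]
    exact integral_mono hint1 hint hpt
  have h2 : m / a ^ 3 ≤ v / (32 * a ^ 2) := by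
    rw [div_le_div_iff₀ (by positivity) (by positivity)]
    nlinarith [mul_le_mul_of_nonneg_right hma (show 0 ≤ a ^ 2 by positivity)]
  have h3 : √a * (1 - v / (16 * a ^ 2) + m / a ^ 3) ≤ √a * (1 - v / (32 * a ^ 2)) := by
    refine mul_le_mul_of_nonneg_left ?_ hs.le
    have : v / (16 * a ^ 2) = v / (32 * a ^ 2) + v / (32 * a ^ 2) := by field_simp; ring
    linarith
  have h4 : v / 32 * (√a / a ^ 2) = √a * (v / (32 * a ^ 2)) := by field_simp
  rw [h4]
  calc _ ≤ √a * (1 - v / (32 * a ^ 2)) + √a * (v / (32 * a ^ 2)) := by linarith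
    _ = √a := by ring

variable {Ω : Type*} [mΩ : MeasurableSpace Ω]

/-- the walk -/
structure Walk (P : Measure Ω) (F : ℕ → MeasurableSpace Ω) (L : ℕ → Ω → ℝ) (ν : Measure ℝ) :
    Prop where
  prob : IsProbabilityMeasure P
  mono : Monotone F
  le : ∀ t, F t ≤ mΩ
  meas : ∀ t, Measurable[F t] (L t)
  step : ∀ t, ∀ H : Ω → ℝ≥0∞, Measurable[F t] H → ∀ ψ : ℝ → ℝ≥0∞, Measurable ψ →
    ∫⁻ ω, H ω * ψ (L (t + 1) ω) ∂P = ∫⁻ ω, H ω * ∫⁻ z, ψ (L t ω + z) ∂ν ∂P

/-- the level `h` has not been reached -/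
def DD (L : ℕ → Ω → ℝ) (k h : ℝ) (t : ℕ) : Set Ω := {ω | -k ≤ L 0 ω ∧ ∀ s ≤ t, L s ω < h}

variable {P : Measure Ω} {F : ℕ → MeasurableSpace Ω} {L : ℕ → Ω → ℝ} {ν : Measure ℝ}

theorem DD_meas (W : Walk P F L ν) (k h : ℝ) (t : ℕ) : MeasurableSet[F t] (DD L k h t) := by
  have e : DD L k h t = {ω | -k ≤ L 0 ω} ∩ ⋂ s ∈ Finset.range (t + 1), {ω | L s ω < h} := by
    ext ω
    simp [DD, Nat.lt_succ_iff]
  rw [e]
  refine MeasurableSet.inter ?_ (Finset.measurableSet_biInter _ fun s hs => ?_)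
  · exact measurableSet_le measurable_const ((W.meas 0).mono (W.mono (Nat.zero_le t)) le_rfl)
  · rw [Finset.mem_range] at hs
    exact measurableSet_lt ((W.meas s).mono (W.mono (by omega)) le_rfl) measurable_const

theorem DD_anti (k h : ℝ) {s t : ℕ} (hst : s ≤ t) : DD L k h t ⊆ DD L k h s :=
  fun _ hω => ⟨hω.1, fun r hr => hω.2 r (hr.trans hst)⟩

theorem drift (W : Walk P F L ν) (hν : Inc ν) {A h k : ℝ}
    (hA : 32 * (∫ z, |z| ^ 3 ∂ν) / (∫ z, z ^ 2 ∂ν) + 1 ≤ A) (t : ℕ) :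
    ∫⁻ ω in DD L k h (t + 1), ENNReal.ofReal (√(A + h - L (t + 1) ω)) ∂P +
      ENNReal.ofReal ((∫ z, z ^ 2 ∂ν) / 32) *
        ∫⁻ ω in DD L k h t, ENNReal.ofReal (√(A + h - L t ω) / (A + h - L t ω) ^ 2) ∂P ≤
      ∫⁻ ω in DD L k h t, ENNReal.ofReal (√(A + h - L t ω)) ∂P := by
  have hDt := W.le t _ (DD_meas W k h t)
  have hLt : Measurable (L t) := (W.meas t).mono (W.le t) le_rfl
  have hLt1 : Measurable (L (t + 1)) := (W.meas (t + 1)).mono (W.le (t + 1)) le_rfl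
  have h1 : ∫⁻ ω in DD L k h (t + 1), ENNReal.ofReal (√(A + h - L (t + 1) ω)) ∂P ≤
      ∫⁻ ω in DD L k h t, ENNReal.ofReal (√(A + h - L (t + 1) ω)) ∂P :=
    lintegral_mono_set (DD_anti k h (Nat.le_succ t))
  have h2 : ∫⁻ ω in DD L k h t, ENNReal.ofReal (√(A + h - L (t + 1) ω)) ∂P =
      ∫⁻ ω in DD L k h t, (∫⁻ z, ENNReal.ofReal (√(A + h - (L t ω + z))) ∂ν) ∂P := by
    have hind : Measurable[F t] ((DD L k h t).indicator (1 : Ω → ℝ≥0∞)) :=
      @Measurable.indicator Ω ℝ≥0∞ (DD L k h t) (fun _ => 1) (F t) _ _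
        (@measurable_const ℝ≥0∞ Ω _ (F t) 1) (DD_meas W k h t)
    have h3 := W.step t ((DD L k h t).indicator 1) hind
      (fun x => ENNReal.ofReal (√(A + h - x))) (by fun_prop)
    rw [← lintegral_indicator hDt, ← lintegral_indicator hDt]
    have e1 : ∀ f : Ω → ℝ≥0∞, (fun ω => (DD L k h t).indicator (1 : Ω → ℝ≥0∞) ω * f ω) =
        (DD L k h t).indicator f := by
      intro f
      funext ω
      by_cases hω : ω ∈ DD L k h t
      · rw [Set.indicator_of_mem hω, Set.indicator_of_mem hω, Pi.one_apply, one_mul]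
      · rw [Set.indicator_of_notMem hω, Set.indicator_of_notMem hω, zero_mul]
    rw [e1, e1] at h3
    exact h3
  rw [h2] at h1
  refine (add_le_add_left h1 _).trans ?_
  rw [← lintegral_const_mul _ (by fun_prop), ← lintegral_add_right _ (by fun_prop)]
  refine setLIntegral_mono (by fun_prop) fun ω hω => ?_
  have h4 : A < A + h - L t ω := by
    have := hω.2 t le_rfl
    linarith
  have h5 := lyap hν (a := A + h - L t ω) (by linarith)
  have e : (fun z => ENNReal.ofReal (√(A + h - (L t ω + z)))) =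
      fun z => ENNReal.ofReal (√(A + h - L t ω - z)) := by
    funext z
    congr 2
    ring
  rw [e, ← ENNReal.ofReal_mul (by linarith [hν.var])]
  exact h5

theorem hit_bound (W : Walk P F L ν) (hν : Inc ν) {A h k : ℝ}
    (hA : 32 * (∫ z, |z| ^ 3 ∂ν) / (∫ z, z ^ 2 ∂ν) + 1 ≤ A) (j : ℕ) :
    P (DD L k h (16 ^ j)) ≤ ENNReal.ofReal (√(A + h + k) *
      ((32 / (∫ z, z ^ 2 ∂ν) + 1) * (1 / 2) ^ j)) := by
  have := W.prob
  obtain ⟨v, hv⟩ : ∃ v, v = ∫ z, z ^ 2 ∂ν := ⟨_, rfl⟩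
  have hv0 : 0 < v := hv ▸ hν.var
  obtain ⟨V, hV⟩ : ∃ V : ℕ → ℝ≥0∞, V = fun t =>
    ∫⁻ ω in DD L k h t, ENNReal.ofReal (√(A + h - L t ω)) ∂P := ⟨_, rfl⟩
  obtain ⟨U, hU⟩ : ∃ U : ℕ → ℝ≥0∞, U = fun t =>
    ∫⁻ ω in DD L k h t, ENNReal.ofReal (√(A + h - L t ω) / (A + h - L t ω) ^ 2) ∂P := ⟨_, rfl⟩
  have hdr : ∀ t, V (t + 1) + ENNReal.ofReal (v / 32) * U t ≤ V t := by
    intro t
    rw [hV, hU, hv]
    exact drift W hν hA t
  have hsum : ∀ n, V n + ENNReal.ofReal (v / 32) * ∑ t ∈ Finset.range n, U t ≤ V 0 := by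
    intro n
    induction n with
    | zero => simp
    | succ n ih =>
      rw [Finset.sum_range_succ, mul_add]
      calc V (n + 1) + (ENNReal.ofReal (v / 32) * ∑ t ∈ Finset.range n, U t +
            ENNReal.ofReal (v / 32) * U n) =
            (V (n + 1) + ENNReal.ofReal (v / 32) * U n) +
              ENNReal.ofReal (v / 32) * ∑ t ∈ Finset.range n, U t := by ring
        _ ≤ V n + ENNReal.ofReal (v / 32) * ∑ t ∈ Finset.range n, U t :=
            add_le_add_left (hdr n) _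
        _ ≤ V 0 := ih
  have hVle : ∀ n, V n ≤ V 0 := fun n => le_self_add.trans (hsum n)
  have hV0 : V 0 ≤ ENNReal.ofReal (√(A + h + k)) := by
    rw [hV]
    calc ∫⁻ ω in DD L k h 0, ENNReal.ofReal (√(A + h - L 0 ω)) ∂P ≤
          ∫⁻ _ω in DD L k h 0, ENNReal.ofReal (√(A + h + k)) ∂P := by
          refine setLIntegral_mono measurable_const fun ω hω => ?_
          refine ENNReal.ofReal_le_ofReal (Real.sqrt_le_sqrt ?_)
          have := hω.1
          linarith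
      _ = ENNReal.ofReal (√(A + h + k)) * P (DD L k h 0) := by rw [setLIntegral_const]
      _ ≤ ENNReal.ofReal (√(A + h + k)) * 1 := mul_le_mul_right prob_le_one _
      _ = _ := mul_one _
  have hUs : ∀ n, ∑ t ∈ Finset.range n, U t ≤ ENNReal.ofReal (32 / v) * V 0 := by
    intro n
    have h1 : ENNReal.ofReal (v / 32) * ∑ t ∈ Finset.range n, U t ≤ V 0 :=
      le_add_self.trans (hsum n)
    calc ∑ t ∈ Finset.range n, U t =
          ENNReal.ofReal (32 / v) * (ENNReal.ofReal (v / 32) * ∑ t ∈ Finset.range n, U t) := by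
          rw [← mul_assoc, ← ENNReal.ofReal_mul (by positivity)]
          have : 32 / v * (v / 32) = 1 := by field_simp
          rw [this, ENNReal.ofReal_one, one_mul]
      _ ≤ _ := mul_le_mul_right h1 _
  have hpt : ∀ t, ∀ B : ℝ, 0 < B → P (DD L k h t) ≤
      ENNReal.ofReal (B ^ 3) * U t + ENNReal.ofReal (1 / B) * V t := by
    intro t B hB
    have hLt : Measurable (L t) := (W.meas t).mono (W.le t) le_rfl
    rw [hV, hU]
    simp only
    rw [← lintegral_const_mul _ (by fun_prop), ← lintegral_const_mul _ (by fun_prop),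
      ← lintegral_add_left (by fun_prop), ← setLIntegral_one]
    refine setLIntegral_mono (by fun_prop) fun ω hω => ?_
    have hA0 : 0 < A := by
      have : 0 ≤ 32 * (∫ z, |z| ^ 3 ∂ν) / (∫ z, z ^ 2 ∂ν) := by
        refine div_nonneg (mul_nonneg (by norm_num) (integral_nonneg fun z => by positivity)) ?_
        rw [← hv]
        exact hv0.le
      linarith
    have ha : 0 < A + h - L t ω := by
      have := hω.2 t le_rfl
      linarith
    obtain ⟨s, hs, hs2⟩ : ∃ s : ℝ, 0 < s ∧ A + h - L t ω = s ^ 2 :=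
      ⟨√(A + h - L t ω), Real.sqrt_pos.2 ha, (Real.sq_sqrt ha.le).symm⟩
    rw [hs2, Real.sqrt_sq hs.le, ← ENNReal.ofReal_mul (by positivity),
      ← ENNReal.ofReal_mul (by positivity), ← ENNReal.ofReal_add (by positivity) (by positivity),
      ← ENNReal.ofReal_one]
    refine ENNReal.ofReal_le_ofReal ?_
    have e1 : B ^ 3 * (s / (s ^ 2) ^ 2) = (B / s) ^ 3 := by field_simp
    have e2 : 1 / B * s = s / B := by ring
    rw [e1, e2]
    rcases le_total s B with h1 | h1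
    · have h2 : 1 ≤ B / s := by rwa [one_le_div hs]
      have h3 : 1 ≤ (B / s) ^ 3 := one_le_pow₀ h2
      have : 0 ≤ s / B := by positivity
      linarith
    · have h2 : 1 ≤ s / B := by rwa [one_le_div hB]
      have : 0 ≤ (B / s) ^ 3 := by positivity
      linarith
  have hmain : ∀ n : ℕ, ∀ B : ℝ, 0 < B → (n : ℝ≥0∞) * P (DD L k h n) ≤
      ENNReal.ofReal (B ^ 3) * (ENNReal.ofReal (32 / v) * V 0) +
        (n : ℝ≥0∞) * (ENNReal.ofReal (1 / B) * V 0) := by
    intro n B hB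
    calc (n : ℝ≥0∞) * P (DD L k h n) = ∑ _t ∈ Finset.range n, P (DD L k h n) := by
          rw [Finset.sum_const, Finset.card_range, nsmul_eq_mul]
      _ ≤ ∑ t ∈ Finset.range n, (ENNReal.ofReal (B ^ 3) * U t + ENNReal.ofReal (1 / B) * V 0) := by
          refine Finset.sum_le_sum fun t ht => ?_
          rw [Finset.mem_range] at ht
          refine (measure_mono (DD_anti k h ht.le)).trans ((hpt t B hB).trans ?_)
          exact add_le_add_right (mul_le_mul_right (hVle t) _) _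
      _ = ENNReal.ofReal (B ^ 3) * ∑ t ∈ Finset.range n, U t +
            (n : ℝ≥0∞) * (ENNReal.ofReal (1 / B) * V 0) := by
          rw [Finset.sum_add_distrib, ← Finset.mul_sum, Finset.sum_const, Finset.card_range,
            nsmul_eq_mul]
      _ ≤ _ := add_le_add_left (mul_le_mul_right (hUs n) _) _
  have h1 := hmain (16 ^ j) (2 ^ j) (by positivity)
  have hn : ((16 ^ j : ℕ) : ℝ≥0∞) = ENNReal.ofReal (16 ^ j) := by
    rw [ENNReal.ofReal_pow (by norm_num)]
    simp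
  rw [hn] at h1
  have h16 : (0 : ℝ) < 16 ^ j := by positivity
  have h2 : P (DD L k h (16 ^ j)) = ENNReal.ofReal (1 / 16 ^ j) *
      (ENNReal.ofReal (16 ^ j) * P (DD L k h (16 ^ j))) := by
    rw [← mul_assoc, ← ENNReal.ofReal_mul (by positivity)]
    have : (1 : ℝ) / 16 ^ j * 16 ^ j = 1 := by field_simp
    rw [this, ENNReal.ofReal_one, one_mul]
  rw [h2, ← hv]
  calc ENNReal.ofReal (1 / 16 ^ j) * (ENNReal.ofReal (16 ^ j) * P (DD L k h (16 ^ j))) ≤
        ENNReal.ofReal (1 / 16 ^ j) * (ENNReal.ofReal ((2 ^ j) ^ 3) *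
          (ENNReal.ofReal (32 / v) * V 0) + ENNReal.ofReal (16 ^ j) *
            (ENNReal.ofReal (1 / 2 ^ j) * V 0)) := mul_le_mul_right h1 _
    _ = (ENNReal.ofReal (1 / 16 ^ j) * ENNReal.ofReal ((2 ^ j) ^ 3) * ENNReal.ofReal (32 / v) +
          ENNReal.ofReal (1 / 16 ^ j) * ENNReal.ofReal (16 ^ j) * ENNReal.ofReal (1 / 2 ^ j)) *
            V 0 := by ring
    _ ≤ (ENNReal.ofReal (1 / 16 ^ j) * ENNReal.ofReal ((2 ^ j) ^ 3) * ENNReal.ofReal (32 / v) +
          ENNReal.ofReal (1 / 16 ^ j) * ENNReal.ofReal (16 ^ j) * ENNReal.ofReal (1 / 2 ^ j)) *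
            ENNReal.ofReal (√(A + h + k)) := mul_le_mul_right hV0 _
    _ = _ := by
        rw [← ENNReal.ofReal_mul (by positivity), ← ENNReal.ofReal_mul (by positivity),
          ← ENNReal.ofReal_mul (by positivity), ← ENNReal.ofReal_mul (by positivity),
          ← ENNReal.ofReal_add (by positivity) (by positivity),
          ← ENNReal.ofReal_mul (by positivity)]
        congr 1
        have e1 : (16 : ℝ) ^ j = (2 ^ j) ^ 4 := by
          rw [← pow_mul, mul_comm, pow_mul]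
          norm_num
        have e2 : ((1 : ℝ) / 2) ^ j = 1 / 2 ^ j := by rw [div_pow, one_pow]
        rw [e1, e2]
        have : (0 : ℝ) < 2 ^ j := by positivity
        field_simp

theorem summ (A k v : ℝ) (hA : 0 ≤ A) (hk : 0 ≤ k) (hv : 0 < v) : Summable fun j : ℕ =>
    √(A + 3 * Real.log (16 ^ (j + 1)) + k) * ((32 / v + 1) * (1 / 2) ^ j) := by
  have hlog : 0 ≤ Real.log 16 := Real.log_nonneg (by norm_num)
  have e : (fun j : ℕ => √(A + 3 * Real.log (16 ^ (j + 1)) + k) * ((32 / v + 1) * (1 / 2) ^ j)) =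
      fun j : ℕ => √(A + 3 * (((j : ℝ) + 1) * Real.log 16) + k) * ((32 / v + 1) * (1 / 2) ^ j) := by
    funext j
    rw [Real.log_pow, Nat.cast_add, Nat.cast_one]
  rw [e]
  generalize Real.log 16 = l at hlog
  have s1 : Summable fun j : ℕ => (1 / 2 : ℝ) ^ j :=
    summable_geometric_of_lt_one (by norm_num) (by norm_num)
  have s2 : Summable fun j : ℕ => ((j : ℝ) ^ 1 * (1 / 2 : ℝ) ^ j) :=
    summable_pow_mul_geometric_of_norm_lt_one 1 (by
      rw [Real.norm_eq_abs, abs_of_pos (by norm_num)]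
      norm_num)
  have hs := (s1.mul_left ((1 + A + 3 * l + k) * (32 / v + 1))).add
    (s2.mul_left (3 * l * (32 / v + 1)))
  refine Summable.of_nonneg_of_le (fun j => ?_) (fun j => ?_) hs
  · exact mul_nonneg (Real.sqrt_nonneg _) (mul_nonneg (by positivity) (by positivity))
  · have h1 : √(A + 3 * (((j : ℝ) + 1) * l) + k) ≤ 1 + (A + 3 * (((j : ℝ) + 1) * l) + k) := by
      have h0 : 0 ≤ A + 3 * (((j : ℝ) + 1) * l) + k := by positivity
      rw [Real.sqrt_le_left (by linarith)]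
      nlinarith
    calc √(A + 3 * (((j : ℝ) + 1) * l) + k) * ((32 / v + 1) * (1 / 2) ^ j) ≤
          (1 + (A + 3 * (((j : ℝ) + 1) * l) + k)) * ((32 / v + 1) * (1 / 2) ^ j) :=
          mul_le_mul_of_nonneg_right h1 (by positivity)
      _ = _ := by
          simp only [pow_one]
          ring

/-- **the walk reaches `3 log t` before `t`** -/
theorem walk_main (W : Walk P F L ν) (hν : Inc ν) :
    ∀ᵐ ω ∂P, ∀ᶠ t : ℕ in atTop, ∃ s < t, 3 * Real.log t ≤ L s ω := by
  have := W.prob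
  obtain ⟨A, hA⟩ : ∃ A, A = 32 * (∫ z, |z| ^ 3 ∂ν) / (∫ z, z ^ 2 ∂ν) + 1 := ⟨_, rfl⟩
  obtain ⟨v, hv⟩ : ∃ v, v = ∫ z, z ^ 2 ∂ν := ⟨_, rfl⟩
  have hv0 : 0 < v := hv ▸ hν.var
  have hA0 : 0 ≤ A := by
    have : 0 ≤ 32 * (∫ z, |z| ^ 3 ∂ν) / (∫ z, z ^ 2 ∂ν) := by
      refine div_nonneg (mul_nonneg (by norm_num) (integral_nonneg fun z => by positivity)) ?_
      rw [← hv]
      exact hv0.le
    linarith
  have key : ∀ k : ℕ, ∀ᵐ ω ∂P, ∀ᶠ j : ℕ in atTop,
      ω ∉ DD L k (3 * Real.log (16 ^ (j + 1))) (16 ^ j) := by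
    intro k
    refine ae_eventually_notMem (ne_top_of_le_ne_top ?_
      (ENNReal.tsum_le_tsum fun j => hit_bound W hν hA.ge j))
    rw [← ENNReal.ofReal_tsum_of_nonneg]
    · exact ENNReal.ofReal_ne_top
    · intro j
      rw [← hv]
      exact mul_nonneg (Real.sqrt_nonneg _) (mul_nonneg (by positivity) (by positivity))
    · rw [← hv]
      exact summ A k v hA0 (Nat.cast_nonneg k) hv0
  rw [← ae_all_iff] at key
  filter_upwards [key] with ω hω
  obtain ⟨k, hk⟩ := exists_nat_ge (-L 0 ω)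
  obtain ⟨J, hJ⟩ := eventually_atTop.1 (hω k)
  filter_upwards [eventually_ge_atTop (16 ^ J + 1)] with t ht
  obtain ⟨j, hj⟩ : ∃ j, j = Nat.log 16 (t - 1) := ⟨_, rfl⟩
  have h16 : 0 < 16 ^ J := by positivity
  have hj1 : 16 ^ j ≤ t - 1 := by
    rw [hj]
    exact Nat.pow_log_le_self 16 (by omega)
  have hj2 : t - 1 < 16 ^ (j + 1) := by
    rw [hj]
    exact Nat.lt_pow_succ_log_self (by norm_num) _
  have hjJ : J ≤ j := by
    rw [hj]
    exact Nat.le_log_of_pow_le (by norm_num) (by omega)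
  have h1 := hJ j hjJ
  unfold DD at h1
  rw [Set.mem_ofPred_eq, not_and] at h1
  have h2 := h1 (by linarith)
  push Not at h2
  obtain ⟨s, hs, hs2⟩ := h2
  refine ⟨s, by omega, le_trans ?_ hs2⟩
  refine mul_le_mul_of_nonneg_left (Real.log_le_log ?_ ?_) (by norm_num)
  · have : 0 < t := by omega
    exact_mod_cast this
  · have : t ≤ 16 ^ (j + 1) := by omega
    exact_mod_cast this

end Q214.GC
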