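import Mathlib
import Pool.Agent.Q214.GC.Walk
import Pool.Agent.Q214.GC.Gau

/-!
# The moments of the logarithm of the ratio
-/

set_option autoImplicit false

namespace Q214.GC

open MeasureTheory ProbabilityTheory Filter Topology Module
open scoped ENNReal RealInnerProductSpace NNReal

theorem law_coord (n : ℕ) : (stdGaussian (EE n)).map (fun g => ⟪e1 n, g⟫) = gaussianReal 0 1 := by
  apply Measure.ext_of_charFun
  ext t
  rw [charFun_apply, integral_map (by fun_prop) (by fun_prop)]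
  have h1 : ∀ g : EE n, ⟪⟪e1 n, g⟫, t⟫ = ⟪g, t • e1 n⟫ := by
    intro g
    rw [inner_smul_right, real_inner_comm g (e1 n)]
    simp only [RCLike.inner_apply, conj_trivial]
  simp_rw [h1]
  rw [← charFun_apply, charFun_stdGaussian, charFun_gaussianReal, norm_smul, norm_e1, mul_one,
    Real.norm_eq_abs]
  congr 1
  rw [← Complex.ofReal_pow, sq_abs]
  push_cast
  ring

theorem int_abs : IntegrableOn (fun y : ℝ => |y| ^ (-(1 / 2) : ℝ)) (Set.Ioo (-1) 1) := by
  have h1 : IntegrableOn (fun y : ℝ => |y| ^ (-(1 / 2) : ℝ)) (Set.Ioo 0 1) := by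
    have h := (intervalIntegral.integrableOn_Ioo_rpow_iff (s := (-(1 / 2) : ℝ)) (t := 1)
      one_pos).2 (by norm_num)
    refine h.congr_fun (fun y hy => ?_) measurableSet_Ioo
    simp only
    rw [abs_of_pos hy.1]
  have h2 : IntegrableOn (fun y : ℝ => |y| ^ (-(1 / 2) : ℝ)) (Set.Ioo (-1) 0) := by
    have h := ((Measure.measurePreserving_neg (volume : Measure ℝ)).integrableOn_comp_preimage
      (Homeomorph.neg ℝ).measurableEmbedding).2 h1
    have e : (Neg.neg ⁻¹' Set.Ioo (0 : ℝ) 1) = Set.Ioo (-1) 0 := by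
      ext y
      simp only [Set.mem_preimage, Set.mem_Ioo]
      constructor <;> rintro ⟨h3, h4⟩ <;> constructor <;> linarith
    rw [e] at h
    refine h.congr_fun (fun y _ => ?_) measurableSet_Ioo
    simp only [Function.comp_apply, abs_neg]
  have h3 : IntegrableOn (fun y : ℝ => |y| ^ (-(1 / 2) : ℝ)) {(0 : ℝ)} := by
    have h0 : (volume : Measure ℝ).restrict {(0 : ℝ)} = 0 :=
      Measure.restrict_eq_zero.2 (measure_singleton 0)
    rw [IntegrableOn, h0]
    exact integrable_zero_measure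
  refine ((h2.union h3).union h1).mono_set fun y hy => ?_
  rcases lt_trichotomy y 0 with h | h | h
  · exact Or.inl (Or.inl ⟨hy.1, h⟩)
  · exact Or.inl (Or.inr h)
  · exact Or.inr ⟨h, hy.2⟩

theorem meas_neg (β q : ℝ) : Measurable (fun x : ℝ => |β + q * x| ^ (-(1 / 2) : ℝ)) :=
  (measurable_norm.comp (by fun_prop : Measurable fun x : ℝ => β + q * x)).pow_const _

theorem int_neg (β : ℝ) {q : ℝ} (hq : 0 < q) :
    Integrable (fun x : ℝ => |β + q * x| ^ (-(1 / 2) : ℝ)) (gaussianReal 0 1) := by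
  obtain ⟨G, hG⟩ : ∃ G : ℝ → ℝ, G = (Set.Ioo (-1 : ℝ) 1).indicator
    (fun y : ℝ => |y| ^ (-(1 / 2) : ℝ)) := ⟨_, rfl⟩
  have hGi : Integrable G volume := by
    rw [hG]
    exact int_abs.integrable_indicator measurableSet_Ioo
  have h1 : Integrable (fun x : ℝ => G (β + q * x)) volume :=
    (hGi.comp_add_left β).comp_mul_left' hq.ne'
  have h2 : Integrable (fun x : ℝ => G (β + q * x)) (gaussianReal 0 1) :=
    h1.mono_measure gaussianReal_le
  refine ((integrable_const (1 : ℝ)).add h2).mono' (meas_neg β q).aestronglyMeasurable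
    (ae_of_all _ fun x => ?_)
  rw [Real.norm_eq_abs, abs_of_nonneg (by positivity)]
  simp only [Pi.add_apply]
  rw [hG]
  by_cases hx : β + q * x ∈ Set.Ioo (-1 : ℝ) 1
  · rw [Set.indicator_of_mem hx]
    linarith
  · rw [Set.indicator_of_notMem hx, add_zero]
    refine Real.rpow_le_one_of_one_le_of_nonpos ?_ (by norm_num)
    by_contra hc
    exact hx (abs_lt.1 (not_le.1 hc))

theorem log_cube {R : ℝ} (hR : 0 < R) : |Real.log R| ^ 3 ≤ 216 * (R ^ (1 / 2 : ℝ) +
    R ^ (-(1 / 2) : ℝ)) := by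
  have hp1 : 0 ≤ R ^ (1 / 2 : ℝ) := by positivity
  have hp2 : 0 ≤ R ^ (-(1 / 2) : ℝ) := by positivity
  have key : ∀ x : ℝ, 0 < x → 0 ≤ Real.log x → (Real.log x) ^ 3 ≤ 216 * x ^ (1 / 2 : ℝ) := by
    intro x hx hl
    have h1 : Real.log x ≤ x ^ (1 / 6 : ℝ) / (1 / 6) := Real.log_le_rpow_div hx.le (by norm_num)
    calc (Real.log x) ^ 3 ≤ (x ^ (1 / 6 : ℝ) / (1 / 6)) ^ 3 := pow_le_pow_left₀ hl h1 3
      _ = 216 * (x ^ (1 / 6 : ℝ)) ^ 3 := by ring
      _ = 216 * x ^ (1 / 2 : ℝ) := by
        rw [← Real.rpow_natCast, ← Real.rpow_mul hx.le]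
        norm_num
  rcases le_total 0 (Real.log R) with h | h
  · rw [abs_of_nonneg h]
    linarith [key R hR h]
  · rw [abs_of_nonpos h, ← Real.log_inv]
    have h1 := key R⁻¹ (inv_pos.2 hR) (by rw [Real.log_inv]; linarith)
    rw [Real.inv_rpow hR.le, ← Real.rpow_neg hR.le] at h1
    linarith

/-- the law of the logarithm of the ratio -/
noncomputable def nu (n : ℕ) (β q : ℝ) : Measure ℝ :=
  (stdGaussian (EE n)).map (fun g => Real.log ‖β • e1 n + q • g‖)

theorem log_meas (n : ℕ) (β q : ℝ) :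
    Measurable (fun g : EE n => Real.log ‖β • e1 n + q • g‖) := by fun_prop

theorem coord_le (n : ℕ) (β q : ℝ) (g : EE n) :
    |β + q * ⟪e1 n, g⟫| ≤ ‖β • e1 n + q • g‖ := by
  have h1 : β + q * ⟪e1 n, g⟫ = ⟪e1 n, β • e1 n + q • g⟫ := by
    rw [inner_add_right, inner_smul_right, inner_smul_right, real_inner_self_eq_norm_sq, norm_e1]
    ring
  rw [h1]
  have := abs_real_inner_le_norm (e1 n) (β • e1 n + q • g)
  rwa [norm_e1, one_mul] at this

theorem coord_ne (n : ℕ) (β : ℝ) {q : ℝ} (hq : 0 < q) :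
    ∀ᵐ g ∂(stdGaussian (EE n)), β + q * ⟪e1 n, g⟫ ≠ 0 := by
  have h1 : ∀ᵐ x ∂((stdGaussian (EE n)).map (fun g => ⟪e1 n, g⟫)), x ≠ -β / q := by
    rw [law_coord]
    have := nullSingletonClass_gaussianReal (μ := 0) (v := 1) one_ne_zero
    rw [ae_iff]
    have e : {x : ℝ | ¬ x ≠ -β / q} = {-β / q} := by
      ext x
      simp
    rw [e]
    exact measure_singleton _
  have h2 := ae_of_ae_map (by fun_prop : AEMeasurable (fun g : EE n => ⟪e1 n, g⟫)
    (stdGaussian (EE n))) h1
  filter_upwards [h2] with g hg h3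
  apply hg
  rw [eq_div_iff hq.ne']
  linarith

theorem int_log (n : ℕ) (β : ℝ) {q : ℝ} (hq : 0 < q) :
    Integrable (fun g : EE n => |Real.log ‖β • e1 n + q • g‖| ^ 3) (stdGaussian (EE n)) := by
  have h1 : Integrable (fun g : EE n => |β + q * ⟪e1 n, g⟫| ^ (-(1 / 2) : ℝ))
      (stdGaussian (EE n)) := by
    have h := int_neg β hq
    rw [← law_coord n] at h
    exact (integrable_map_measure (meas_neg β q).aestronglyMeasurable (by fun_prop)).1 h
  have h2 : Integrable (fun g : EE n => ‖g‖) (stdGaussian (EE n)) :=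
    (IsGaussian.integrable_id (μ := stdGaussian (EE n))).norm
  refine (((((integrable_const (1 + |β|)).add (h2.const_mul q)).add h1).const_mul 216)).mono'
    ((measurable_norm.comp (log_meas n β q)).pow_const 3).aestronglyMeasurable ?_
  filter_upwards [coord_ne n β hq] with g hg
  rw [Real.norm_eq_abs, abs_of_nonneg (by positivity)]
  simp only [Pi.add_apply]
  have hS : 0 < |β + q * ⟪e1 n, g⟫| := abs_pos.2 hg
  have hR : 0 < ‖β • e1 n + q • g‖ := hS.trans_le (coord_le n β q g)
  refine (log_cube hR).trans (mul_le_mul_of_nonneg_left ?_ (by norm_num))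
  refine add_le_add ?_ ?_
  · have h3 : ‖β • e1 n + q • g‖ ≤ |β| + q * ‖g‖ := by
      refine (norm_add_le _ _).trans (le_of_eq ?_)
      rw [norm_smul, norm_smul, norm_e1, mul_one, Real.norm_eq_abs, Real.norm_eq_abs,
        abs_of_pos hq]
    have h4 : ‖β • e1 n + q • g‖ ^ (1 / 2 : ℝ) ≤ 1 + ‖β • e1 n + q • g‖ := by
      rw [← Real.sqrt_eq_rpow, Real.sqrt_le_left (by positivity)]
      nlinarith
    linarith
  · exact Real.rpow_le_rpow_of_nonpos hS (coord_le n β q g) (by norm_num)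

theorem inc_nu (n : ℕ) (β : ℝ) {q : ℝ} (hq : 0 < q)
    (h0 : ∫ g, Real.log ‖β • e1 n + q • g‖ ∂(stdGaussian (EE n)) = 0) : Inc (nu n β q) := by
  have hm := log_meas n β q
  have hp : IsProbabilityMeasure (nu n β q) := by
    unfold nu
    exact Measure.isProbabilityMeasure_map hm.aemeasurable
  have i3 : Integrable (fun z : ℝ => |z| ^ 3) (nu n β q) := by
    unfold nu
    rw [integrable_map_measure (by fun_prop) hm.aemeasurable]
    exact int_log n β hq
  have i1 : Integrable (fun z : ℝ => z) (nu n β q) := by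
    refine ((integrable_const (1 : ℝ)).add i3).mono' (by fun_prop) (ae_of_all _ fun z => ?_)
    rw [Real.norm_eq_abs]
    simp only [Pi.add_apply]
    nlinarith [abs_nonneg z, sq_nonneg (|z| - 1), mul_nonneg (abs_nonneg z) (sq_nonneg (|z| - 1))]
  have i2 : Integrable (fun z : ℝ => z ^ 2) (nu n β q) := by
    refine ((integrable_const (1 : ℝ)).add i3).mono' (by fun_prop) (ae_of_all _ fun z => ?_)
    rw [Real.norm_eq_abs, abs_of_nonneg (sq_nonneg z), ← sq_abs]
    simp only [Pi.add_apply]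
    nlinarith [abs_nonneg z, sq_nonneg (|z| - 1), mul_nonneg (abs_nonneg z) (sq_nonneg (|z| - 1))]
  refine ⟨hp, i1, i3, ?_, ?_⟩
  · unfold nu
    rw [integral_map hm.aemeasurable (by fun_prop)]
    exact h0
  · rw [integral_pos_iff_support_of_nonneg (fun z => sq_nonneg z) i2]
    have h1 : 0 < gaussianReal 0 1 (Set.Ioi ((1 - β) / q)) := by
      rw [pos_iff_ne_zero]
      intro h
      have h2 := gaussianReal_absolutelyContinuous' 0 (v := 1) one_ne_zero h
      rw [Real.volume_Ioi] at h2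
      exact ENNReal.top_ne_zero h2
    refine h1.trans_le ?_
    rw [← law_coord n, Measure.map_apply (by fun_prop) measurableSet_Ioi]
    unfold nu
    rw [Measure.map_apply hm (measurableSet_support (by fun_prop))]
    refine measure_mono fun g hg => ?_
    rw [Set.mem_preimage, Set.mem_Ioi, div_lt_iff₀ hq] at hg
    have h3 : 1 < ‖β • e1 n + q • g‖ :=
      (show (1 : ℝ) < |β + q * ⟪e1 n, g⟫| from lt_of_lt_of_le (by linarith) (le_abs_self _)).trans_le
        (coord_le n β q g)
    rw [Set.mem_preimage, Function.mem_support]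
    exact (pow_pos (Real.log_pos h3) 2).ne'

end Q214.GC
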