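import Mathlib
import Pool.Agent.Q214.GC.Mom

/-!
# The Gaussian consensus process in one dimension
-/

set_option autoImplicit false

namespace Q214.GC

open MeasureTheory ProbabilityTheory Filter Topology Module
open scoped ENNReal RealInnerProductSpace NNReal

variable {E : Type*} [NormedAddCommGroup E] [InnerProductSpace ℝ E] [FiniteDimensional ℝ E]
  [MeasurableSpace E] [BorelSpace E] {Ω : Type*} [mΩ : MeasurableSpace Ω]

/-- the process -/
structure Chain (e : E) (β q : ℝ) (P : Measure Ω) (F : ℕ → MeasurableSpace Ω) (Y : ℕ → Ω → E) :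
    Prop where
  prob : IsProbabilityMeasure P
  mono : Monotone F
  le : ∀ t, F t ≤ mΩ
  meas : ∀ t, Measurable[F t] (Y t)
  step : ∀ t, ∀ H : Ω → ℝ≥0∞, Measurable[F t] H → ∀ φ : E → ℝ≥0∞, Measurable φ →
    ∫⁻ ω, H ω * φ (Y (t + 1) ω) ∂P = ∫⁻ ω, H ω * KK e β q φ (Y t ω) ∂P
  init : ∀ᵐ ω ∂P, 0 < ‖bar e (Y 0 ω)‖

variable {e : E} {β q : ℝ} {P : Measure Ω} {F : ℕ → MeasurableSpace Ω} {Y : ℕ → Ω → E} {n : ℕ}

theorem pos_norm (n : ℕ) (β : ℝ) {q : ℝ} (hq : 0 < q) :
    ∀ᵐ g ∂(stdGaussian (EE n)), 0 < ‖β • e1 n + q • g‖ := by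
  filter_upwards [coord_ne n β hq] with g hg
  exact (abs_pos.2 hg).trans_le (coord_le n β q g)

theorem Chain.pos (C : Chain e β q P F Y) (hfin : finrank ℝ E = n + 2) (he : ‖e‖ = 1)
    (hq : 0 < q) (t : ℕ) : ∀ᵐ ω ∂P, 0 < ‖bar e (Y t ω)‖ := by
  induction t with
  | zero => exact C.init
  | succ t ih =>
    have hb := bar_meas e
    have hψ : Measurable (fun x : ℝ => if x = 0 then (1 : ℝ≥0∞) else 0) :=
      Measurable.ite (measurableSet_singleton 0) measurable_const measurable_const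
    have hφ : Measurable (fun z : E => if ‖bar e z‖ = 0 then (1 : ℝ≥0∞) else 0) :=
      hψ.comp hb.norm
    have h1 := C.step t (fun _ => 1) (@measurable_const ℝ≥0∞ Ω _ (F t) 1) _ hφ
    have h2 : ∫⁻ ω, (1 : ℝ≥0∞) * KK e β q (fun z : E => if ‖bar e z‖ = 0 then (1 : ℝ≥0∞) else 0)
        (Y t ω) ∂P = 0 := by
      rw [lintegral_congr_ae (g := fun _ => 0)]
      · simp
      · filter_upwards [ih] with ω hω
        rw [one_mul]
        unfold KK
        rw [ratio hfin he β q hω hψ, lintegral_congr_ae (g := fun _ => 0)]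
        · simp
        · filter_upwards [pos_norm n β hq] with g hg
          rw [if_neg]
          exact (mul_pos hω hg).ne'
    rw [h2] at h1
    simp only [one_mul] at h1
    have hY : Measurable (Y (t + 1)) := (C.meas (t + 1)).mono (C.le (t + 1)) le_rfl
    have h1' : ∫⁻ ω, ((fun z : E => if ‖bar e z‖ = 0 then (1 : ℝ≥0∞) else 0) ∘ Y (t + 1)) ω ∂P =
        0 := h1
    rw [lintegral_eq_zero_iff (hφ.comp hY)] at h1'
    filter_upwards [h1'] with ω hω
    rcases (norm_nonneg (bar e (Y (t + 1) ω))).eq_or_lt with h3 | h3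
    · exfalso
      simp only [Function.comp_apply, Pi.zero_apply, ← h3, if_true] at hω
      exact one_ne_zero hω
    · exact h3

theorem Chain.walk (C : Chain e β q P F Y) (hfin : finrank ℝ E = n + 2) (he : ‖e‖ = 1)
    (hq : 0 < q) : Walk P F (fun t ω => Real.log ‖bar e (Y t ω)‖) (nu n β q) := by
  have hb := bar_meas e
  refine ⟨C.prob, C.mono, C.le, fun t => ?_, fun t H hH ψ hψ => ?_⟩
  · exact (Real.measurable_log.comp hb.norm).comp (C.meas t)
  · have hφ : Measurable (fun z : E => ψ (Real.log ‖bar e z‖)) :=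
      hψ.comp (Real.measurable_log.comp hb.norm)
    rw [C.step t H hH _ hφ]
    refine lintegral_congr_ae ?_
    filter_upwards [C.pos hfin he hq t] with ω hω
    congr 1
    have h5 := ratio hfin he β q hω (ψ := fun x => ψ (Real.log x)) (hψ.comp Real.measurable_log)
    have h6 : ∫⁻ z, ψ (Real.log ‖bar e (Y t ω)‖ + z) ∂(nu n β q) =
        ∫⁻ g, ψ (Real.log ‖bar e (Y t ω)‖ + Real.log ‖β • e1 n + q • g‖) ∂(stdGaussian (EE n)) :=
      lintegral_map (by fun_prop) (log_meas n β q)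
    rw [h6]
    refine h5.trans (lintegral_congr_ae ?_)
    filter_upwards [pos_norm n β hq] with g hg
    rw [Real.log_mul hω.ne' hg.ne']

theorem Chain.iter (C : Chain e β q P F Y) (r : ℕ) : ∀ (t : ℕ) (H : Ω → ℝ≥0∞), Measurable[F t] H →
    ∀ φ : E → ℝ≥0∞, Measurable φ →
    ∫⁻ ω, H ω * φ (Y (t + r) ω) ∂P = ∫⁻ ω, H ω * (KK e β q)^[r] φ (Y t ω) ∂P := by
  induction r with
  | zero => intro t H _ φ _; rfl
  | succ r ih =>
    intro t H hH φ hφ
    have h1 := C.step (t + r) H (hH.mono (C.mono (Nat.le_add_right t r)) le_rfl) φ hφ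
    rw [← add_assoc, h1, ih t H hH _ (KK_meas e β q hφ), Function.iterate_succ_apply]

/-- the event that the spread was large before -/
theorem Chain.far (C : Chain e β q P F Y) (he : ‖e‖ = 1) (hq : 0 < q) {φ : E → ℝ≥0∞}
    (hφ : Measurable φ) {B : ℝ≥0∞} (hB : ∀ z, ∫⁻ c : ℝ, φ (z + c • e) ≤ B) {s t : ℕ} (hst : s < t)
    {M : ℝ} (hM : 0 < M) :
    ∫⁻ ω, (if M ≤ ‖bar e (Y s ω)‖ then 1 else 0) * φ (Y t ω) ∂P ≤
      ENNReal.ofReal (1 / (q * M)) * B := by
  have := C.prob
  have hb := bar_meas e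
  obtain ⟨r, rfl⟩ : ∃ r, t = s + (r + 1) := ⟨t - s - 1, by omega⟩
  have hH : Measurable[F s] (fun ω => if M ≤ ‖bar e (Y s ω)‖ then (1 : ℝ≥0∞) else 0) := by
    have hψ : Measurable (fun z : E => if M ≤ ‖bar e z‖ then (1 : ℝ≥0∞) else 0) :=
      Measurable.ite (measurableSet_le measurable_const hb.norm) measurable_const
        measurable_const
    exact hψ.comp (C.meas s)
  rw [C.iter (r + 1) s _ hH φ hφ]
  calc ∫⁻ ω, (if M ≤ ‖bar e (Y s ω)‖ then (1 : ℝ≥0∞) else 0) *
        (KK e β q)^[r + 1] φ (Y s ω) ∂P ≤ ∫⁻ _ω, ENNReal.ofReal (1 / (q * M)) * B ∂P := by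
        refine lintegral_mono fun ω => ?_
        simp only
        split_ifs with h
        · rw [one_mul]
          refine (KK_bound he β hq hφ hB r (hM.trans_le h)).trans ?_
          refine mul_le_mul_left (ENNReal.ofReal_le_ofReal ?_) _
          exact one_div_le_one_div_of_le (mul_pos hq hM) (mul_le_mul_of_nonneg_left h hq.le)
        · rw [zero_mul]
          exact zero_le
    _ = _ := by rw [lintegral_const, measure_univ, mul_one]

/-- **divergence** -/
theorem Chain.main (C : Chain e β q P F Y) (hfin : finrank ℝ E = n + 2) (he : ‖e‖ = 1)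
    (hq : 0 < q) (h0 : ∫ g, Real.log ‖β • e1 n + q • g‖ ∂(stdGaussian (EE n)) = 0)
    {l : E → ℝ} (hl : Measurable l) {r : ℝ} (hr : 0 < r)
    (hlr : ∀ z (c : ℝ), l (z + c • e) = l z + r * c) :
    ∀ᵐ ω ∂P, Tendsto (fun t => |l (Y t ω)|) atTop atTop := by
  have := C.prob
  have hb := bar_meas e
  have hwalk := walk_main (C.walk hfin he hq) (inc_nu n β hq h0)
  have hpos : ∀ᵐ ω ∂P, ∀ t, 0 < ‖bar e (Y t ω)‖ := ae_all_iff.2 (C.pos hfin he hq)
  have key : ∀ K : ℕ, ∀ᵐ ω ∂P, ∀ᶠ t : ℕ in atTop,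
      ω ∉ {ω | |l (Y t ω)| ≤ K ∧ ∃ s < t, (t : ℝ) ^ 3 ≤ ‖bar e (Y s ω)‖} := by
    intro K
    obtain ⟨φ, hφd⟩ : ∃ φ : E → ℝ≥0∞, φ = fun z => if |l z| ≤ K then 1 else 0 := ⟨_, rfl⟩
    have hφ : Measurable φ := by
      rw [hφd]
      exact Measurable.ite (measurableSet_le (measurable_norm.comp hl) measurable_const)
        measurable_const measurable_const
    have hB : ∀ z, ∫⁻ c : ℝ, φ (z + c • e) ≤ ENNReal.ofReal (2 * K / r) := by
      intro z
      calc ∫⁻ c : ℝ, φ (z + c • e) ≤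
            ∫⁻ c : ℝ, (Set.Icc ((-K - l z) / r) ((K - l z) / r)).indicator 1 c := by
            refine lintegral_mono fun c => ?_
            rw [hφd]
            simp only
            split_ifs with h
            · rw [Set.indicator_of_mem]
              · rfl
              · rw [hlr, abs_le] at h
                rw [Set.mem_Icc, div_le_iff₀ hr, le_div_iff₀ hr]
                constructor <;> linarith
            · exact zero_le
        _ = volume (Set.Icc ((-K - l z) / r) ((K - l z) / r)) :=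
            lintegral_indicator_one measurableSet_Icc
        _ = _ := by
            rw [Real.volume_Icc]
            congr 1
            ring
    have hP : ∀ t : ℕ, P {ω | |l (Y t ω)| ≤ K ∧ ∃ s < t, (t : ℝ) ^ 3 ≤ ‖bar e (Y s ω)‖} ≤
        ENNReal.ofReal (2 * K / (q * r) * (1 / (t : ℝ) ^ 2)) := by
      intro t
      rcases Nat.eq_zero_or_pos t with rfl | ht
      · have e0 : {ω | |l (Y 0 ω)| ≤ K ∧ ∃ s < 0, ((0 : ℕ) : ℝ) ^ 3 ≤ ‖bar e (Y s ω)‖} = ∅ := by
          ext ω
          simp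
        rw [e0, measure_empty]
        exact zero_le
      have ht0 : (0 : ℝ) < t := by exact_mod_cast ht
      have hsub : {ω | |l (Y t ω)| ≤ K ∧ ∃ s < t, (t : ℝ) ^ 3 ≤ ‖bar e (Y s ω)‖} ⊆
          ⋃ s ∈ Finset.range t, {ω | |l (Y t ω)| ≤ K ∧ (t : ℝ) ^ 3 ≤ ‖bar e (Y s ω)‖} := by
        rintro ω ⟨h1, s, hs, h2⟩
        simp only [Set.mem_iUnion, Finset.mem_range]
        exact ⟨s, hs, h1, h2⟩
      refine (measure_mono hsub).trans ((measure_biUnion_finset_le _ _).trans ?_)
      have hs : ∀ s ∈ Finset.range t, P {ω | |l (Y t ω)| ≤ K ∧ (t : ℝ) ^ 3 ≤ ‖bar e (Y s ω)‖} ≤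
          ENNReal.ofReal (1 / (q * (t : ℝ) ^ 3)) * ENNReal.ofReal (2 * K / r) := by
        intro s hs
        rw [Finset.mem_range] at hs
        refine le_trans ?_ (C.far he hq hφ hB hs (M := (t : ℝ) ^ 3) (by positivity))
        have hYs : Measurable (Y s) := (C.meas s).mono (C.le s) le_rfl
        have hYt : Measurable (Y t) := (C.meas t).mono (C.le t) le_rfl
        have hset : MeasurableSet {ω | |l (Y t ω)| ≤ K ∧ (t : ℝ) ^ 3 ≤ ‖bar e (Y s ω)‖} :=
          (measurableSet_le (measurable_norm.comp (hl.comp hYt)) measurable_const).inter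
            (measurableSet_le measurable_const (hb.norm.comp hYs))
        rw [← lintegral_indicator_one hset]
        refine lintegral_mono fun ω => ?_
        by_cases hω : ω ∈ {ω | |l (Y t ω)| ≤ K ∧ (t : ℝ) ^ 3 ≤ ‖bar e (Y s ω)‖}
        · rw [Set.indicator_of_mem hω, hφd]
          simp only
          rw [if_pos hω.1, if_pos hω.2, one_mul]
          rfl
        · rw [Set.indicator_of_notMem hω]
          exact zero_le
      refine (Finset.sum_le_sum hs).trans (le_of_eq ?_)
      rw [Finset.sum_const, Finset.card_range, nsmul_eq_mul,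
        ← ENNReal.ofReal_mul (by positivity), ← ENNReal.ofReal_natCast,
        ← ENNReal.ofReal_mul (by positivity)]
      congr 1
      field_simp
    refine ae_eventually_notMem (ne_top_of_le_ne_top ?_ (ENNReal.tsum_le_tsum hP))
    rw [← ENNReal.ofReal_tsum_of_nonneg]
    · exact ENNReal.ofReal_ne_top
    · intro t
      positivity
    · exact ((Real.summable_one_div_nat_pow (p := 2)).2 (by norm_num)).mul_left _
  rw [← ae_all_iff] at key
  filter_upwards [key, hwalk, hpos] with ω h1 h2 h3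
  rw [tendsto_atTop]
  intro b
  obtain ⟨K, hK⟩ := exists_nat_ge b
  filter_upwards [h1 K, h2, eventually_gt_atTop 0] with t h4 h5 h6
  rw [not_and_or] at h4
  obtain ⟨s, hs, h7⟩ := h5
  have ht0 : (0 : ℝ) < t := by exact_mod_cast h6
  have h8 : (t : ℝ) ^ 3 ≤ ‖bar e (Y s ω)‖ := by
    rw [← Real.log_le_log_iff (by positivity) (h3 s), Real.log_pow]
    exact_mod_cast h7
  rcases h4 with h4 | h4
  · exact hK.trans (not_le.1 h4).le
  · exact absurd ⟨s, hs, h8⟩ h4

end Q214.GC
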